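import Pool.Agent.COS.Stmts

set_option autoImplicit false

/-!
# COS: row WRD (helper86)
-/

namespace Pool.Agent.COS.H86

open Pool.Agent.PAR
open Pool.Agent.COS

/-- four words and a rest -/
def jn (w0 w1 w2 w3 r : Word) : Word := w0 ++ (w1 ++ (w2 ++ (w3 ++ r)))

section lists

variable {N : ℕ} {w0 w1 w2 w3 r : Word}

theorem dr1 (h0 : w0.length = N) : (jn w0 w1 w2 w3 r).drop (1 * N) = w1 ++ (w2 ++ (w3 ++ r)) := by
  rw [jn, one_mul, List.drop_left' h0]

theorem dr2 (h0 : w0.length = N) (h1 : w1.length = N) :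
    (jn w0 w1 w2 w3 r).drop (2 * N) = w2 ++ (w3 ++ r) := by
  rw [show 2 * N = 1 * N + N by ring, ← List.drop_drop, dr1 h0, List.drop_left' h1]

theorem dr3 (h0 : w0.length = N) (h1 : w1.length = N) (h2 : w2.length = N) :
    (jn w0 w1 w2 w3 r).drop (3 * N) = w3 ++ r := by
  rw [show 3 * N = 2 * N + N by ring, ← List.drop_drop, dr2 h0 h1, List.drop_left' h2]

theorem dr4 (h0 : w0.length = N) (h1 : w1.length = N) (h2 : w2.length = N)
    (h3 : w3.length = N) : (jn w0 w1 w2 w3 r).drop (4 * N) = r := by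
  rw [show 4 * N = 3 * N + N by ring, ← List.drop_drop, dr3 h0 h1 h2, List.drop_left' h3]

theorem dr4' (h0 : w0.length = N) (h1 : w1.length = N) (h2 : w2.length = N)
    (h3 : w3.length = N) (k : ℕ) : (jn w0 w1 w2 w3 r).drop (4 * N + k) = r.drop k := by
  rw [← List.drop_drop, dr4 h0 h1 h2 h3]

theorem bl0 (h0 : w0.length = N) : blW N (jn w0 w1 w2 w3 r) 0 = w0 := by
  rw [blW, zero_mul, List.drop_zero, jn, List.take_left' h0]

theorem bl1 (h0 : w0.length = N) (h1 : w1.length = N) : blW N (jn w0 w1 w2 w3 r) 1 = w1 := by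
  rw [blW, dr1 h0, List.take_left' h1]

theorem bl2 (h0 : w0.length = N) (h1 : w1.length = N) (h2 : w2.length = N) :
    blW N (jn w0 w1 w2 w3 r) 2 = w2 := by
  rw [blW, dr2 h0 h1, List.take_left' h2]

theorem bl3 (h0 : w0.length = N) (h1 : w1.length = N) (h2 : w2.length = N)
    (h3 : w3.length = N) : blW N (jn w0 w1 w2 w3 r) 3 = w3 := by
  rw [blW, dr3 h0 h1 h2, List.take_left' h3]

theorem bl4 (h0 : w0.length = N) (h1 : w1.length = N) (h2 : w2.length = N)
    (h3 : w3.length = N) : blW N (jn w0 w1 w2 w3 r) 4 = blW N r 0 := by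
  rw [blW, dr4 h0 h1 h2 h3, blW, zero_mul, List.drop_zero]

theorem bl5 (h0 : w0.length = N) (h1 : w1.length = N) (h2 : w2.length = N)
    (h3 : w3.length = N) : blW N (jn w0 w1 w2 w3 r) 5 = blW N r 1 := by
  rw [blW, show 5 * N = 4 * N + 1 * N by ring, dr4' h0 h1 h2 h3, blW]

end lists

theorem spl (N : ℕ) (c : Word) :
    c = jn (blW N c 0) (blW N c 1) (blW N c 2) (blW N c 3) (c.drop (4 * N)) := by
  have h : ∀ k : ℕ, c.drop (k * N) = blW N c k ++ c.drop ((k + 1) * N) := by
    intro k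
    rw [blW, show (k + 1) * N = k * N + N by ring, ← List.drop_drop, List.take_append_drop]
  calc c = c.drop (0 * N) := by rw [zero_mul, List.drop_zero]
    _ = blW N c 0 ++ c.drop (1 * N) := h 0
    _ = blW N c 0 ++ (blW N c 1 ++ c.drop (2 * N)) := by rw [← h 1]
    _ = blW N c 0 ++ (blW N c 1 ++ (blW N c 2 ++ c.drop (3 * N))) := by rw [← h 2]
    _ = blW N c 0 ++ (blW N c 1 ++ (blW N c 2 ++ (blW N c 3 ++ c.drop (4 * N)))) := by
        rw [← h 3]

theorem bl_len {N k : ℕ} {c : Word} (h : (k + 1) * N ≤ c.length) : (blW N c k).length = N := by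
  rw [blW, List.length_take, List.length_drop]
  have h1 : (k + 1) * N = k * N + N := by ring
  omega

theorem uni_unit {n : ℕ} {A : Matrix (Fin n) (Fin n) (ZMod 2)} (h : IsUni A) :
    ∃ u : Gr n, u.1 = A := by
  have hdet : A.det = 1 := by
    rw [Matrix.det_of_upperTriangular (fun i j hij => h.2 i j hij)]
    exact Finset.prod_eq_one fun i _ => h.1 i
  have hu : IsUnit A.det := by
    rw [hdet]
    exact isUnit_one
  exact ⟨Matrix.nonsingInvUnit A hu, rfl⟩

theorem wrd (hA : WraStmt) (hB : WrbStmt) : WrdStmt := by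
  intro V n x
  obtain ⟨hmul, hone, hru, hsur, hinj, hlen⟩ := hA n
  obtain ⟨e, einj, elen, esur, hfr⟩ := hB (n * n)
  have hentenc : ∀ (A : Matrix (Fin n) (Fin n) (ZMod 2)) (y : Fin (n * n) → Bool),
      enc A = List.ofFn y → ent A = y := fun A y h => List.ofFn_injective h
  set W : Set (Gr n) := {A : Gr n | V (x, enc A.1) = true} with hW
  let F : Gr n × Gr n × Fr (n * n) → Word := fun t =>
    jn (enc t.1.1) (enc (t.1⁻¹).1) (enc t.2.1.1) (enc (t.2.1⁻¹).1) (e t.2.2)
  -- the sets of vectors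
  have hsec : ∀ a a' : Gr n,
      {y : Fin (n * n) → Bool | inW V n x (enc a'.1) (enc (a⁻¹).1) (List.ofFn y) = true} =
        Sec W a a' := by
    intro a a'
    ext y
    constructor
    · intro h
      have h' : inW V n x (enc a'.1) (enc (a⁻¹).1) (List.ofFn y) = true := h
      rw [inW, Bool.and_eq_true, Bool.and_eq_true] at h'
      obtain ⟨⟨h1, h2⟩, h3⟩ := h'
      obtain ⟨A, hAy⟩ := hsur (List.ofFn y) (by rw [List.length_ofFn])
      rw [← hAy] at h2 h3
      have hu : IsUni A := (hru A).2.1 h2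
      obtain ⟨u, hu'⟩ := uni_unit hu
      refine ⟨u, ⟨?_, ?_⟩, ?_⟩
      · rw [hu']
        exact hu
      · change V (x, enc (a' * u * a⁻¹).1) = true
        have e1 : (a' * u * a⁻¹).1 = a'.1 * A * (a⁻¹).1 := by
          rw [← hu']
          rfl
        rw [e1, ← hmul, ← hmul]
        exact h3
      · rw [hu']
        exact hentenc A y hAy
    · rintro ⟨u, ⟨h1, h2⟩, h3⟩
      change inW V n x (enc a'.1) (enc (a⁻¹).1) (List.ofFn y) = true
      have h4 : List.ofFn y = enc u.1 := by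
        rw [← h3]
        rfl
      rw [h4, inW, Bool.and_eq_true, Bool.and_eq_true]
      refine ⟨⟨?_, (hru u.1).2.2 h1⟩, ?_⟩
      · rw [decide_eq_true_iff]
        exact hlen u.1
      · have h5 : V (x, enc (a' * u * a⁻¹).1) = true := h2
        have e1 : (a' * u * a⁻¹).1 = a'.1 * u.1 * (a⁻¹).1 := rfl
        rw [e1, ← hmul, ← hmul] at h5
        exact h5
  have hFlen : ∀ t, (F t).length = 6 * (n * n) + 2 * ((n * n) * (n * n)) := by
    intro t
    change (jn (enc t.1.1) (enc (t.1⁻¹).1) (enc t.2.1.1) (enc (t.2.1⁻¹).1) (e t.2.2)).length = _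
    rw [jn, List.length_append, List.length_append, List.length_append, List.length_append,
      hlen, hlen, hlen, hlen, elen]
    ring
  have hkey : ∀ t, val V n x (F t) = true ↔ Tup W t := by
    rintro ⟨a, a', t⟩
    have l0 := hlen a.1
    have l1 := hlen (a⁻¹).1
    have l2 := hlen a'.1
    have l3 := hlen (a'⁻¹).1
    have hFe : F (a, a', t) =
      jn (enc a.1) (enc (a⁻¹).1) (enc a'.1) (enc (a'⁻¹).1) (e t) := rfl
    have b0 : blW (n * n) (F (a, a', t)) 0 = enc a.1 := bl0 l0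
    have b1 : blW (n * n) (F (a, a', t)) 1 = enc (a⁻¹).1 := bl1 l0 l1
    have b2 : blW (n * n) (F (a, a', t)) 2 = enc a'.1 := bl2 l0 l1 l2
    have b3 : blW (n * n) (F (a, a', t)) 3 = enc (a'⁻¹).1 := bl3 l0 l1 l2 l3
    have b4 : blW (n * n) (F (a, a', t)) 4 = blW (n * n) (e t) 0 := bl4 l0 l1 l2 l3
    have b5 : blW (n * n) (F (a, a', t)) 5 = blW (n * n) (e t) 1 := bl5 l0 l1 l2 l3
    have b6 : (F (a, a', t)).drop (6 * (n * n)) = (e t).drop (2 * (n * n)) := by
      rw [hFe, show 6 * (n * n) = 4 * (n * n) + 2 * (n * n) by ring, dr4' l0 l1 l2 l3]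
    have b7 : (F (a, a', t)).drop (6 * (n * n) + (n * n) * (n * n)) =
        (e t).drop (2 * (n * n) + (n * n) * (n * n)) := by
      rw [hFe, show 6 * (n * n) + (n * n) * (n * n) =
        4 * (n * n) + (2 * (n * n) + (n * n) * (n * n)) by ring, dr4' l0 l1 l2 l3]
    have m1 : mulW n (enc a.1) (enc (a⁻¹).1) = oneW n := by
      rw [hmul, hone]
      have : a.1 * (a⁻¹).1 = 1 := a.mul_inv
      rw [this]
    have m2 : mulW n (enc a'.1) (enc (a'⁻¹).1) = oneW n := by
      rw [hmul, hone]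
      have : a'.1 * (a'⁻¹).1 = 1 := a'.mul_inv
      rw [this]
    rw [val, b0, b1, b2, b3, b4, b5, b6, b7, m1, m2, hFlen]
    simp only [Bool.and_eq_true, decide_eq_true_eq, true_and]
    rw [(hru a.1).1, (hru a'.1).1, hfr, hsec, and_assoc]
    rfl
  have hFinj : Function.Injective F := by
    rintro ⟨a, a', t⟩ ⟨b, b', t'⟩ h
    have h0 := congrArg (fun c => blW (n * n) c 0) h
    have h2 := congrArg (fun c => blW (n * n) c 2) h
    have h4 := congrArg (fun c => List.drop (4 * (n * n)) c) h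
    have e0 : enc a.1 = enc b.1 := by
      have p : blW (n * n) (F (a, a', t)) 0 = enc a.1 := bl0 (hlen a.1)
      have q : blW (n * n) (F (b, b', t')) 0 = enc b.1 := bl0 (hlen b.1)
      rw [← p, ← q]
      exact h0
    have e2 : enc a'.1 = enc b'.1 := by
      have p : blW (n * n) (F (a, a', t)) 2 = enc a'.1 :=
        bl2 (hlen a.1) (hlen (a⁻¹).1) (hlen a'.1)
      have q : blW (n * n) (F (b, b', t')) 2 = enc b'.1 :=
        bl2 (hlen b.1) (hlen (b⁻¹).1) (hlen b'.1)
      rw [← p, ← q]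
      exact h2
    have e4 : e t = e t' := by
      have p : (F (a, a', t)).drop (4 * (n * n)) = e t :=
        dr4 (hlen a.1) (hlen (a⁻¹).1) (hlen a'.1) (hlen (a'⁻¹).1)
      have q : (F (b, b', t')).drop (4 * (n * n)) = e t' :=
        dr4 (hlen b.1) (hlen (b⁻¹).1) (hlen b'.1) (hlen (b'⁻¹).1)
      rw [← p, ← q]
      exact h4
    have a1 : a = b := Units.ext (hinj _ _ e0)
    have a2 : a' = b' := Units.ext (hinj _ _ e2)
    have a3 : t = t' := einj e4
    rw [a1, a2, a3]
  have himg : {c : Word | val V n x c = true} = F '' {t | Tup W t} := by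
    ext c
    constructor
    · intro h
      have h' : val V n x c = true := h
      have hv := h'
      rw [val] at h'
      simp only [Bool.and_eq_true, decide_eq_true_eq] at h'
      obtain ⟨⟨⟨⟨⟨hl, hm1⟩, hm2⟩, -⟩, -⟩, -⟩ := h'
      have hlc : 6 * (n * n) ≤ c.length := by rw [hl]; exact Nat.le_add_right _ _
      have k0 : (blW (n * n) c 0).length = n * n := bl_len (by omega)
      have k1 : (blW (n * n) c 1).length = n * n := bl_len (by omega)
      have k2 : (blW (n * n) c 2).length = n * n := bl_len (by omega)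
      have k3 : (blW (n * n) c 3).length = n * n := bl_len (by omega)
      obtain ⟨A0, hA0⟩ := hsur _ k0
      obtain ⟨A1, hA1⟩ := hsur _ k1
      obtain ⟨A2, hA2⟩ := hsur _ k2
      obtain ⟨A3, hA3⟩ := hsur _ k3
      obtain ⟨t, ht⟩ := esur (c.drop (4 * (n * n))) (by
        rw [List.length_drop, hl]
        omega)
      rw [← hA0, ← hA1, hmul, hone] at hm1
      rw [← hA2, ← hA3, hmul, hone] at hm2
      have u1 : A0 * A1 = 1 := hinj _ _ hm1
      have u2 : A2 * A3 = 1 := hinj _ _ hm2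
      let a : Gr n := ⟨A0, A1, u1, mul_eq_one_comm.1 u1⟩
      let a' : Gr n := ⟨A2, A3, u2, mul_eq_one_comm.1 u2⟩
      have hc : F (a, a', t) = c := by
        have p : F (a, a', t) = jn (enc A0) (enc A1) (enc A2) (enc A3) (e t) := rfl
        rw [p, hA0, hA1, hA2, hA3, ht]
        exact (spl (n * n) c).symm
      refine ⟨(a, a', t), ?_, hc⟩
      apply (hkey (a, a', t)).1
      rw [hc]
      exact hv
    · rintro ⟨t, ht, rfl⟩
      exact (hkey t).2 ht
  rw [himg, Set.ncard_image_of_injective _ hFinj]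

end Pool.Agent.COS.H86
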